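import Pool.Agent.Helper57.THA.St
import Pool.Agent.Helper14.WLK.Typ
import Pool.Agent.Helper35.WLK.Thr
import Pool.Agent.Helper79.THA.LBR
import Pool.Agent.Helper92.WK.Dcn

/-! [TYP] transports of the next coordinate on a zoom, for the lines and curves of the larger corner. -/

set_option autoImplicit false
set_option linter.unusedSectionVars false

namespace Pool.Agent.Helper14.THA

open Finset Filter Topology Pool.Agent.Helper69.RK Pool.Agent.Helper31.EC Pool.Agent.Helper31.EC.Sp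
open Pool.Agent.Helper31.EC.QS Pool.Agent.Helper57.TA Pool.Agent.Helper13.AM Pool.Agent.Helper57.THA
open Pool.Agent.Helper14.WLK
open Pool.Agent.Helper79.WLK (LB LR sh)
open Pool.Agent.Helper79.HLD (h_YM YM X_le Y_le_O K_le_O card_sub FlaF)

noncomputable section

variable {S : Sp} {d N r : ℕ} {c : CD S d N r} {w : Fin N → ℝ} {z : Fin N} {ρ : ℝ}

section tri

variable {H : HH S d N}

theorem evalH_le (hH : Tri w H) {A : S.L} (hq : vd c.q 1 ≤ A) (l : Fin N)
    (h : ∀ l', w l' < w l → dg (c.R l') 1 ≤ A) : dg (MvPolynomial.eval c.pt (H l)) 1 ≤ A := by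
  have h1 : MvPolynomial.eval c.pt (H l) ∈ Kn S 1 le_rfl A := by
    refine eval_mem_sub _ _ _ (fun n => (hH.real l n).trans bot_le) fun n hn x hx => ?_
    rcases x with a | l'
    · exact (dg_le_vd c.q 1 a).trans hq
    · exact h l' (hH.low l n hn l' (Finsupp.mem_support_iff.mp hx))
  exact h1

theorem hat_le (hH : Tri w H) {A : S.L} (hq : vd c.q 1 ≤ A) (l : Fin N)
    (h : ∀ l', (l' = l ∨ w l' < w l) → dg (c.R l') 1 ≤ A) : dg (c.cR H l) 1 ≤ A := by
  have h1 : c.cR H l ∈ Kn S 1 le_rfl A :=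
    (Kn S 1 le_rfl A).sub_mem (h l (Or.inl rfl)) (evalH_le hH hq l fun l' hl' => h l' (Or.inr hl'))
  exact h1

theorem R_hat_le (hH : Tri w H) {A : S.L} (hq : vd c.q 1 ≤ A) : ∀ (n : ℕ) (l : Fin N),
    (univ.filter fun l' => w l' < w l).card ≤ n → (∀ l', (l' = l ∨ w l' < w l) → dg (c.cR H l') 1 ≤ A) →
      dg (c.R l) 1 ≤ A := by
  classical
  intro n
  induction n with
  | zero =>
    intro l hl h
    have h1 : c.R l = c.cR H l + MvPolynomial.eval c.pt (H l) := by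
      unfold CD.cR
      ring
    rw [h1]
    refine (dg_add_le _ _ le_rfl).trans (sup_le (h l (Or.inl rfl)) (evalH_le hH hq l fun l' hl' => ?_))
    have h2 : l' ∈ univ.filter fun l' => w l' < w l := Finset.mem_filter.mpr ⟨Finset.mem_univ _, hl'⟩
    rw [Finset.card_eq_zero.mp (Nat.le_zero.mp hl)] at h2
    exact absurd h2 (Finset.notMem_empty _)
  | succ n ih =>
    intro l hl h
    have h1 : c.R l = c.cR H l + MvPolynomial.eval c.pt (H l) := by
      unfold CD.cR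
      ring
    rw [h1]
    refine (dg_add_le _ _ le_rfl).trans (sup_le (h l (Or.inl rfl)) (evalH_le hH hq l fun l' hl' => ?_))
    apply ih l'
    · have h2 : (univ.filter fun l'' => w l'' < w l') ⊂ univ.filter fun l'' => w l'' < w l := by
        rw [Finset.ssubset_iff_of_subset]
        · exact ⟨l', Finset.mem_filter.mpr ⟨Finset.mem_univ _, hl'⟩, fun h3 => lt_irrefl _ (Finset.mem_filter.mp h3).2⟩
        · intro a ha
          exact Finset.mem_filter.mpr ⟨Finset.mem_univ _, (Finset.mem_filter.mp ha).2.trans hl'⟩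
      have h3 := Finset.card_lt_card h2
      omega
    · rintro l'' (h3 | h3)
      · rw [h3]
        exact h l' (Or.inr hl')
      · exact h l'' (Or.inr (h3.trans hl'))

/-- the hatted and the original lower coordinates -/
theorem h_Rh (hH : Tri w H) (j : Fin N) {A : S.L} (hq : vd c.q 1 ≤ A) :
    h (vd (Rh w j c H) 1) A = h (vd (fun l : Low w j => c.R l.1) 1) A := by
  apply le_antisymm
  · have h1 : vd (Rh w j c H) 1 ≤ vd (fun l : Low w j => c.R l.1) 1 ⊔ A := by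
      rw [vd_le]
      rintro ⟨l, hl⟩
      refine hat_le hH (hq.trans le_sup_right) l ?_
      rintro l' (h2 | h2)
      · rw [h2]
        exact (dg_le_vd (fun l : Low w j => c.R l.1) 1 ⟨l, hl⟩).trans le_sup_left
      · exact (dg_le_vd (fun l : Low w j => c.R l.1) 1 ⟨l', h2.trans hl⟩).trans le_sup_left
    refine (h_mono h1).trans ?_
    rw [h_sup_right_of_le le_rfl]
  · have h1 : vd (fun l : Low w j => c.R l.1) 1 ≤ vd (Rh w j c H) 1 ⊔ A := by
      rw [vd_le]
      rintro ⟨l, hl⟩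
      refine R_hat_le hH (hq.trans le_sup_right) _ l le_rfl ?_
      rintro l' (h2 | h2)
      · rw [h2]
        exact (dg_le_vd (Rh w j c H) 1 ⟨l, hl⟩).trans le_sup_left
      · exact (dg_le_vd (Rh w j c H) 1 ⟨l', h2.trans hl⟩).trans le_sup_left
    refine (h_mono h1).trans ?_
    rw [h_sup_right_of_le le_rfl]

end tri

/-- adding a line which is independent of the point over the base point -/
theorem h_line {B O P x K : S.L} (hI : I B O P = 0) (hx : x ≤ O) (hK : K ≤ O) : h x (B ⊔ (K ⊔ P)) = h x (K ⊔ P) := by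
  have h1 : I O B (K ⊔ P) = 0 := by
    apply le_antisymm _ (I_nonneg _ _ _)
    rw [I_comm] at hI
    rw [← hI]
    exact I_cond_le hK
  have h2 : I x B (K ⊔ P) = 0 := I_zero_mono h1 (hx.trans le_sup_left) le_sup_left
  exact I_zero_iff_h.mp h2

section zoom

variable {y e : ℝ} {he : 0 < e} {h1 : e ≤ 1} {Z : ∀ k, Setoid (S.F k).Ω} {c' : CD (S.chg Z e he) d N r}
  {H' : HH (S.chg Z e he) d N} {j : Fin N}

/-- the hatted lower coordinates of the zoom are full over the deep line, the height and the boxes -/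
theorem full_deep (hA : c.Ax w z ρ) (hA' : c'.Ax w z ρ) (hz : c.ZR w z y e he h1 Z c') (hy : 0 ≤ y)
    (hye : w z * y + e ≤ 1) (hH' : Tri w H') (i : Fin r) {s : ℝ} (hs : 0 ≤ s) (hs1 : w z * s ≤ 1) :
    ∑ l : Low w j, (1 - w l.1 * s) ≤
      h (vd (Rh w j c' H') 1) (chgL Z e he (c.b i) ⊔ dg (c'.q 0) 1 ⊔ c'.K s) := by
  have h2 := Pool.Agent.Helper79.LBR.h_low hA' hs hs1 j
  have hK := K_le_O hA' hs hs1
  have h3 : h (vd (Rh w j c' H') 1) (c'.K s ⊔ c'.P) = h (vd (fun l : Low w j => c'.R l.1) 1) (c'.K s ⊔ c'.P) :=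
    h_Rh hH' j le_sup_right
  have hI : I (chgL Z e he (c.b i)) c'.O c'.P = 0 := Pool.Agent.Helper92.WK.zoom_ind hA hy hye hz hA' i
  have hx : vd (Rh w j c' H') 1 ≤ c'.O := by
    rw [vd_le]
    rintro ⟨l, hl⟩
    exact hat_le hH' CD.P_le_O l fun l' _ => (dg_le_vd c'.R 1 l').trans CD.R_le_O
  have h4 := h_line hI hx hK
  have h5 : h (vd (Rh w j c' H') 1) (chgL Z e he (c.b i) ⊔ (c'.K s ⊔ c'.P)) ≤
      h (vd (Rh w j c' H') 1) (chgL Z e he (c.b i) ⊔ dg (c'.q 0) 1 ⊔ c'.K s) := by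
    apply h_anti
    refine sup_le (sup_le le_sup_left ?_) (le_sup_left.trans le_sup_right)
    exact (dg_le_vd c'.q 1 0).trans (le_sup_right.trans le_sup_right)
  rw [h4, h3] at h5
  exact h2.trans h5

/-- the straightened unit box coordinates are full over the line, the height and the box -/
theorem full_box (hA : c.Ax w z ρ) (hz : c.ZR w z y e he h1 Z c') (hy : 0 ≤ y) (hye : w z * y + e ≤ 1)
    (hH' : Tri w H') (i : Fin r) {Y : Low w j → QS S} (hY : ∀ l : Low w j, c'.cR H' l.1 = cQ Z e he h1 (Y l)) :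
    Rt e Y (c.b i ⊔ dg (c.q 0) 1 ⊔ c.K y) := by
  have hZ : Z = (hA.bx.bdd y).toInf.1 := funext hz.base
  subst hZ
  have hy1 : w z * y ≤ 1 := by linarith
  have hK : cl (hA.bx.bdd y).toInf = c.K y := (io_eq _).symm
  choose X hX hX' using hz.q
  choose YR hYR hYR' using hz.R
  -- original coordinates
  have hne : ∀ l : Low w j, l.1 ≠ z := fun l h => absurd (h ▸ l.2) (not_lt.mpr (hA.wz j))
  have n1 : Rt e (YM z YR) (c.K y ⊔ c.P) := by
    apply Rt.of_ge he.le
    rw [card_sub]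
    exact h_YM hA hy he hye hYR
  have n2 : Rt e (fun l : Low w j => YR l.1) (c.K y ⊔ c.P) :=
    n1.comp he.le (fun l : Low w j => (⟨l.1, hne l⟩ : {l : Fin N // l ≠ z})) (fun a b hab => by
      have h3 := congrArg Subtype.val hab
      exact Subtype.ext h3)
  have hYO : vd (fun l : Low w j => YR l.1) e ≤ c.O := by
    rw [vd_le]
    intro l
    exact (dg_le_vd YR e l.1).trans (Y_le_O hA hy he hye hYR)
  have hI : I (c.b i) c.O c.P = 0 := I_zero_mono (CD.Ln.ind hA.ln)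
    ((Finset.le_sup (f := c.b) (Finset.mem_univ i)).trans le_sup_left) le_sup_left
  have n3 : Rt e (fun l : Low w j => YR l.1) (c.b i ⊔ dg (c.q 0) 1 ⊔ c.K y) := by
    have h3 : Rt e (fun l : Low w j => YR l.1) (c.b i ⊔ (c.K y ⊔ c.P)) := by
      unfold Rt at n2 ⊢
      rw [h_line hI hYO (K_le_O hA hy hy1)]
      exact n2
    refine h3.anti he.le (sup_le (sup_le le_sup_left ?_) (le_sup_left.trans le_sup_right))
    exact (dg_le_vd c.q 1 0).trans (le_sup_right.trans le_sup_right)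
  -- on the zoom
  obtain ⟨L, hL⟩ : ∃ L : (S.chg (hA.bx.bdd y).toInf.1 e he).L,
    L = chgL (hA.bx.bdd y).toInf.1 e he (c.b i ⊔ dg (c.q 0) 1) := ⟨_, rfl⟩
  have key : ∀ V : Low w j → QS S, h (vd (fun l => cQ (hA.bx.bdd y).toInf.1 e he h1 (V l)) 1) L =
      h (vd V e) (c.b i ⊔ dg (c.q 0) 1 ⊔ c.K y) / e := by
    intro V
    rw [cQ_vd (hA.bx.bdd y).toInf.1 e he h1 V le_rfl, mul_one, hL, h_chgL_inf, hK]
  have hq : vd c'.q 1 ≤ L := by
    have h2 : vd c'.q 1 = chgL (hA.bx.bdd y).toInf.1 e he (vd X e) := by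
      have h3 := cQ_vd (hA.bx.bdd y).toInf.1 e he h1 X le_rfl
      rw [mul_one] at h3
      rw [← h3]
      exact Pool.Agent.Helper38.NS.vd_congr hX' 1
    rw [h2, hL, chgL_le_inf, hK]
    refine (X_le hA hy he hye hX).trans (sup_le le_sup_right ?_)
    exact (CD.Ln.P_le hA.ln i).trans le_sup_left
  have h2 := h_Rh hH' j hq
  have e1 : Rh w j c' H' = fun l => cQ (hA.bx.bdd y).toInf.1 e he h1 (Y l) := by
    funext l
    exact hY l
  have e2 : (fun l : Low w j => c'.R l.1) = fun l : Low w j => cQ (hA.bx.bdd y).toInf.1 e he h1 (YR l.1) := by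
    funext l
    exact hYR' l.1
  rw [e1, e2, key, key] at h2
  have h3 : h (vd Y e) (c.b i ⊔ dg (c.q 0) 1 ⊔ c.K y) =
      h (vd (fun l : Low w j => YR l.1) e) (c.b i ⊔ dg (c.q 0) 1 ⊔ c.K y) := by
    rw [div_left_inj' he.ne'] at h2
    exact h2
  unfold Rt at n3 ⊢
  rw [h3]
  exact n3

end zoom

/-- the frame of the changed coordinate is a function of the label -/
theorem Ph_LG (hb : c.Bx w z) {H : HH S d N} {s : ℝ} (j : Fin N) : Ph c H s j ∈ CS (LG (gH c H s)) := by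
  refine (CS _).sub_mem (Pool.Agent.Helper79.LBR.F_LG (H := H) hb j) (CS_aeval
    (Pool.Agent.Helper79.LBR.H_LG j) ?_)
  rintro (a | l)
  · exact (CS _).add_mem (CS_C (Pool.Agent.Helper79.LBR.q0_LG (H := H) hb a)) (CS_X _ _)
  · exact (CS _).add_mem (Pool.Agent.Helper79.LBR.F_LG (H := H) hb l) (CS_X _ _)

theorem h0_CS {A : Type} [CommRing A] {β κ : Type} {R : Subring A} {P : MvPolynomial (β ⊕ κ) A} (hP : P ∈ CS R) :
    h0 P ∈ CS R := by
  intro n
  rw [Pool.Agent.Helper79.THA.coeff_h0]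
  exact hP _

/-- a positive lower bound of finitely many positive numbers -/
theorem exists_lower {ι : Type} [Finite ι] (f : ι → ℝ) (hf : ∀ i, 0 < f i) : ∃ ε : ℝ, 0 < ε ∧ ∀ i, ε ≤ f i := by
  rcases isEmpty_or_nonempty ι with h | h
  · exact ⟨1, one_pos, fun i => h.elim i⟩
  · obtain ⟨i0, hi0⟩ := Finite.exists_min f
    exact ⟨f i0, hf i0, hi0⟩

/-- the curves of one type on the zoom -/
theorem cur_zoom (hHAT : ST_HAT) {C : ∀ S : Sp, CD S d N r → Prop} (hC : Cls d N r w z ρ C) (hT : TRs w z C)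
    (hc : C S c) {A : Finset (Fin N)} {κ s₀ : ℝ} {H : HH S d N} {Jh : Fin N → MvPolynomial (Fin (d + 1)) (QS S)}
    {j : Fin N} (hA' : ∀ l, w l < w j → l ∈ A) (hκ1 : κ ≤ 1) (hFU : FU w c A κ s₀ H Jh c.b c.xi) {y e : ℝ}
    {he : 0 < e} {h1 : e ≤ 1} (hy : 0 < y) (hyκ : 2 * w z * y < κ) (hy1' : 2 * w z * y < 1) (hye : w z * y + e ≤ 1)
    {Z : ∀ k, Setoid (S.F k).Ω} {c' : CD (S.chg Z e he) d N r} (hz : c.ZR w z y e he h1 Z c')
    {H' : HH (S.chg Z e he) d N} (hH' : Tri w H')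
    (hYY : ∀ l ∈ A, ∃ Y : QS S, gh c H y l = sc S (w l * y) * Y ∧ c'.cR H' l = cQ Z e he h1 Y) (i : Fin r)
    {αT : ℕ → Type} (bT : ∀ k, ((S.chg Z e he).F k).Ω → αT k) (hbT : Bdd bT) (hbT2 : io bT ≤ chgL Z e he (c.b i))
    {νT : Type} [Fintype νT] (fT : νT → QS (S.chg Z e he)) (hfT : vd fT 1 ≤ chgL Z e he (c.xi i)) :
    ∃ (αB : ℕ → Type) (bB : ∀ k, ((S.chg Z e he).F k).Ω → αB k) (nb nx : Type) (_ : Fintype nb) (_ : Fintype nx)
      (fb : nb → QS (S.chg Z e he)) (fx : nx → QS (S.chg Z e he)) (ρ : Low w j → Polynomial (QS (S.chg Z e he)))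
      (ζ : Polynomial (QS (S.chg Z e he))) (cc : ℕ → MvPolynomial (Low w j) (QS (S.chg Z e he))),
      io bB = chgL Z e he (c.b i) ∧ (∃ u : ∀ k, αB k → αT k, ∀ k ω, bT k ω = u k (bB k ω)) ∧
        (∀ a, ∃ j, fx j = fT a) ∧ vd fx 1 ≤ chgL Z e he (c.xi i) ∧
        Cur bB bB fb fx (c'.q 0) c'.q (Rh w j c' H') (c'.R j) y ρ ζ cc := by
  classical
  have hA := hC.ax S c hc
  have hwz0 : 0 < w z := zero_lt_one.trans (hA.w1 z)
  have hwz1 : 1 < w z := hA.w1 z
  have hwj0 : ∀ l, 0 < w l := fun l => zero_lt_one.trans (hA.w1 l)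
  have hwle : ∀ l, w l * y ≤ w z * y := fun l => mul_le_mul_of_nonneg_right (hA.wz l) hy.le
  have hyz : y ≤ w z * y := by nlinarith
  have hy1 : w z * y ≤ 1 := by linarith
  -- the straightened unit box coordinates
  choose Yf hY1 hY2 using fun l : Low w j => hYY l.1 (hA' l.1 l.2)
  obtain ⟨Yz, hYz1, hYz2⟩ := hz.R j
  obtain ⟨Fh, hFh1, hFh2⟩ := hHAT S d N r c w z ρ hA H hFU.tri y j hy.le hy1
  -- levels
  obtain ⟨ℓ, hℓ⟩ : ∃ ℓ : ℝ, ℓ = min e (κ - w z * y) := ⟨_, rfl⟩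
  have hℓ0 : 0 < ℓ := by
    rw [hℓ]
    exact lt_min he (by linarith)
  have hℓe : ℓ ≤ e := by rw [hℓ]; exact min_le_left _ _
  have hℓκ : ℓ ≤ κ - w z * y := by rw [hℓ]; exact min_le_right _ _
  -- Theorem R
  obtain ⟨αW, bW, νW, iW, fW, hRef, hTR⟩ := Pool.Agent.Helper35.WLK.exists_TRw hC hT hc i hy.le hy1
  have hW : ThR (c.b i) (c.xi i) (c.K y) (c.q 0) bW fW := ⟨hRef.bdd, hRef.io, hRef.le, hTR⟩
  have hgK : vd (gH c H y) 1 = c.K y :=
    Pool.Agent.Helper79.LBR.vd_gH hA.bx hy.le hy1 hFU.tri.real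
  have k1 : ∀ l : Low w j, w l.1 * y + w j * y ≤ 1 := fun l => by
    have := hwle l.1
    have := hwle j
    linarith
  have k2 : ∀ l : Low w j, ℓ ≤ 1 - w l.1 * y := fun l => by
    have := hwle l.1
    linarith
  have k3 : w j * y + y ≤ κ := by
    have := hwle j
    linarith
  have k4 : ∀ l : Low w j, w l.1 * y + y ≤ κ := fun l => by
    have := hwle l.1
    linarith
  have k5 : ∀ l : Low w j, w l.1 * y + ℓ ≤ κ := fun l => by
    have := hwle l.1
    linarith
  have k6 : e * y ≤ y := by nlinarith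
  have k7 : y ≤ 1 := by linarith
  have k8 : ∃ (n : ℕ) (e : Fin (n + 1) → QS S), (∀ l, dg (e l) 1 ≤ c.xi i) ∧ c.R j - pe e (c.q 0) ∈ Id S κ :=
    ⟨c.g, c.cf i j, fun l => (dg_le_vd (c.cv i) 1 (j, l)).trans le_sup_right, by
      rw [← hA.ln.curve i j, sub_self]
      exact Ideal.zero_mem _⟩
  have k9 : ∀ l : Low w j, Rh w j c H l = MvPolynomial.eval (fun a => c.q a - c.q0 y a) (h0 (Ph c H y l.1)) +
      sc S (w l.1 * y) * Yf l := fun l => by
    rw [← hY1 l]
    show c.cR H l.1 = MvPolynomial.eval (dq c y) (h0 (Ph c H y l.1)) +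
      (c.cR H l.1 - MvPolynomial.eval (dq c y) (h0 (Ph c H y l.1)))
    ring
  have k10 : c.R j = MvPolynomial.eval (Sum.elim (fun a => c.q a - c.q0 y a)
      (fun l : Low w j => sc S (w l.1 * y) * Yf l)) Fh + sc S (w j * y) * Yz := by
    rw [hFh2, ← hYz1]
    congr 2
    congr 1
    funext a
    rcases a with a | l
    · rfl
    · exact hY1 l
  have k11 : Rt ℓ Yf (c.b i ⊔ dg (c.q 0) 1 ⊔ c.K y) := (full_box hA hz hy.le hye hH' i hY2).mono hℓ0.le hℓe
  have k12 : ∀ l : Low w j, FlaF (Rh w j c H l) (c.q 0) κ (c.b i) (c.xi i) := fun l => hFU.flat i l.1 (hA' l.1 l.2)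
  have T := @types S d N r c w z ρ y e he h1 Z c' hA hz i hy hye (Low w j) _ (Rh w j c H) (fun l => w l.1) (c.R j)
    (w j) κ ℓ y y (hwj0 j).le (fun l => (hwj0 l.1).le) k1 hℓ0 (by linarith) k2 hy.le le_rfl hκ1 k3 k4 k5 k7 k6
  have T1 := T k12 k8 hgK (fun a => Pool.Agent.Helper79.LBR.q0_LG (H := H) hA.bx a)
    (Pc := fun l : Low w j => h0 (Ph c H y l.1)) (Fc := Fh) (Y := Yf) (Yz := Yz)
    (fun l => h0_CS (Ph_LG hA.bx l.1)) hFh1 k9 k10 k11 hW bT hbT hbT2 fT hfT
  have eR : (fun k => cQ Z e he h1 (Yf k)) = Rh w j c' H' := by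
    funext l
    exact (hY2 l).symm
  rw [eR, ← hYz2] at T1
  exact T1

/-- a type with polynomial transports and a (T)-box gives the transports -/
theorem typ_of_cur {β κ : Type} [Fintype β] [Fintype κ] {D : Dat S β κ} {t : QS S} {B X : S.L} {α : ℕ → Type}
    {bB : ∀ k, (S.F k).Ω → α k} {nb nx : Type} [Fintype nb] [Fintype nx] {fb : nb → QS S} {fx : nx → QS S} {r s r₁ : ℝ}
    {ρ : κ → Polynomial (QS S)} {ζ : Polynomial (QS S)} {cc : ℕ → MvPolynomial κ (QS S)}
    (hC : Cur bB bB fb fx t D.q D.R D.z r ρ ζ cc) (hio : io bB = B) (hX : vd fx 1 ≤ X) {ν : Type} [Fintype ν]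
    {g : ν → QS S} (hT : TBox D bB bB fx t g s) (hr : D.w * s ≤ r) (h1 : r₁ ≤ r)
    (h2 : ∀ l, r₁ ≤ (D.w - D.wt (Sum.inr l)) * s) : Nonempty (Typ D t r₁ B X) := by
  subst hio
  exact ⟨{ al := α
           bV := bB
           bdd := hC.bdd
           ioB := rfl
           φ := nx
           fin := inferInstance
           f := fx
           fX := hX
           G := trG ρ
           p := trp ρ cc ζ.natDegree
           Gk := fun k => trG_PK hC.ρb_know k
           pk := trp_PK hC.ρb_know hC.cb_know _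
           hG := fun W P P' h3 h4 k => Id_mono h1 (hC.hG h3 h4 k)
           hp := fun W P P' h3 h4 => Id_mono h1 (hC.hp h3 h4)
           hT := fun W P P' h3 h4 l => Id_mono (h2 l) (hC.teeD hT hr h3 h4 l) }⟩

/-- [TYP] -/
theorem st_TYP (hHAT : ST_HAT) : ST_TYP := by
  classical
  intro d N r w z ρ C hC hT S c hc A κ s₀ H Jh j hA' hκ1 hFU y e he h1 hy hys hyκ hy1' hye Z c' hz hc' κ' s' H' Jh'
    hκ' hκ'1 hs' hs'1 hFU' hYY D hDq hDR hDz hDwt hDw hDP hLB hLR
  have hA := hC.ax S c hc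
  have hB := hC.ax _ c' hc'
  have hwz0 : 0 < w z := zero_lt_one.trans (hA.w1 z)
  have hwz1 : 1 < w z := hA.w1 z
  have hyz : y ≤ w z * y := by nlinarith
  obtain ⟨s1, hs1⟩ : ∃ s1 : ℝ, s1 = min s' (y / w z) := ⟨_, rfl⟩
  have hs10 : 0 < s1 := by
    rw [hs1]
    exact lt_min hs' (div_pos hy hwz0)
  have hs1s : s1 ≤ s' := by rw [hs1]; exact min_le_left _ _
  have hs1y : w z * s1 ≤ y := by
    have h2 : s1 ≤ y / w z := by rw [hs1]; exact min_le_right _ _
    rw [le_div_iff₀ hwz0] at h2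
    linarith
  have hs11 : w z * s1 < 1 := (mul_le_mul_of_nonneg_left hs1s hwz0.le).trans_lt hs'1
  have hs1l : ∀ l, w l * s1 ≤ w z * s1 := fun l => mul_le_mul_of_nonneg_right (hA.wz l) hs10.le
  obtain ⟨ε, hε0, hε⟩ := exists_lower (fun l : Low w j => (w j - w l.1) * s1)
    (fun l => mul_pos (sub_pos.mpr l.2) hs10)
  refine ⟨min y ε, lt_min hy hε0, (min_le_left _ _).trans (by linarith), fun i => ?_⟩
  obtain ⟨αT, bT, νT, iT, fT, hRef', hTR'⟩ := Pool.Agent.Helper35.WLK.exists_TRw hC hT hc' i hs10.le hs11.le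
  obtain ⟨αB, bB, nb, nx, i1, i2, fb, fx, ρ', ζ, cc, hioB, ⟨u, hu⟩, hfT, hfx, hCur⟩ := cur_zoom hHAT hC hT hc hA' hκ1
    hFU hy hyκ hy1' hye hz hFU'.tri hYY i bT hRef'.bdd (hRef'.io.le.trans (hz.b i)) fT (hRef'.le.trans (hz.xi i))
  have hCur' : Cur bB bB fb fx (c'.q 0) D.q D.R D.z y ρ' ζ cc := by
    rw [hDq, hDR, hDz]
    exact hCur
  have hgK' : vd (gH c' H' s1) 1 = c'.K s1 :=
    Pool.Agent.Helper79.LBR.vd_gH hB.bx hs10.le hs11.le hFU'.tri.real
  have hTB : TBox D bB bB fx (c'.q 0) (gH c' H' s1) s1 := by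
    refine ⟨hLB s1 hs10.le hs1s, hs10.le, ?_, ?_, hLR s1 hs10.le hs1s, ?_, ?_⟩
    · intro a
      rw [hDwt]
      rcases a with a | l
      · show 1 * s1 < 1
        nlinarith
      · show w l.1 * s1 < 1
        exact (hs1l l.1).trans_lt hs11
    · rw [hDw]
      exact (hs1l j).trans hs11.le
    · intro W P P' h2 h3
      rw [hgK']
      have h4 := hTR' W P P' (h2.fn u hu) (fun a => by
        obtain ⟨b, hb⟩ := hfT a
        rw [← hb]
        exact h3 b)
      refine h4.trans (sup_le_sup_right (P.map_mono (sup_le_sup_right (sup_le_sup_right ?_ _) _)) _)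
      rw [hioB]
      exact hz.b i
    · rw [hgK', hioB, hDR]
      have h2 : ∀ l : Low w j, D.wt (Sum.inr l) = w l.1 := fun l => by
        rw [hDwt]
        rfl
      simp only [h2]
      exact full_deep hA hB hz hy.le hye hFU'.tri i hs10.le hs11.le
  have hws : D.w * s1 ≤ y := by
    rw [hDw]
    exact (hs1l j).trans hs1y
  refine typ_of_cur hCur' hioB hfx hTB hws (min_le_left _ _) fun l => ?_
  rw [hDw, hDwt]
  exact (min_le_right _ _).trans (hε l)

end

end Pool.Agent.Helper14.THA
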