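import Pool.Agent.Helper14.THA.Typ
import Pool.Agent.Helper69.THA.HAT

/-! [TYP], unconditional. -/

set_option autoImplicit false

namespace Pool.Agent.Helper14.THA

open Pool.Agent.Helper57.THA

/-- [TYP] -/
theorem st_typ : ST_TYP := st_TYP Pool.Agent.Helper69.HAT.st_HAT

end Pool.Agent.Helper14.THA
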